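import Pool.Agent.H82.UC.KStep

/-!
# The deviations `R(x, y) - 1` at `k` points are uncorrelated, on arbitrary sets, for all lengths above a power of the
logarithm and all integers near almost all vectors of members of thin real sequences

`R(x, y) = (π(x + y) - π(x)) / (y / log x)`. The question is whether `R(x, y)` is close to `1` for all large `x` and
all `(log x) ^ N ≤ y ≤ x`; for a single point the deviation `R(x, y) - 1` cannot be controlled. Here `k` points
`a + b 1, …, a + b k` are considered at the same time, where `a` runs through an arbitrary set of at least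
`N / log ^ C N` integers (or carries an arbitrary weight bounded by `log ^ C N`), and where the shifts `b i` are ALL
integers at a distance of at most `log ^ A N` from `r i (m i)`; the `r i 1, r i 2, …` are arbitrary families of real
numbers of nearly minimal energy, for instance the values of a polynomial or `β + m ^ c`. For all vectors `m` with
few exceptions the means of all products of the `R(a + b i, y i)` are close to `1`, and the means of all products of
the deviations `R(a + b i, y i) - 1` are close to `0`, simultaneously for all real lengths `y i` between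
`log ^ K N` and `N`.

Method: one family of shifts at a time. The numbers `R(a + b 1, y 1)` are used as a new weight, and the exceptional
members of the next family are bounded for each of the `log ^ O(1) N` weights which arise from the integers `b 1` of
a window and from a geometric net of lengths; `R(x, y) y` is monotone in `y`. For one family a set of exceptional
members would be a family of nearly minimal energy itself, which contradicts the theorem of the starting library on
the mean of `R` over almost all translates of thin families (`Pool.Agent.X25.TE.avgFam`); the passage from windows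
around real sequences to families of integers is also from the starting library (`Pool.Agent.Q56.TF.Near`).

From Mathlib: `Nat.primeCounting`: the function `π`; `Polynomial ℤ`, `P.eval m`: polynomials and their values;
`Fintype.piFinset`: the product of finite sets, that is the vectors `m` with `m i ∈ Icc 1 (x i)`.
-/

set_option autoImplicit false

namespace Pool.Agent.Results.MP_293bbf_nt.UncorrelatedDeviations

open Finset

/-- `R(x, y) = (π(x + y) - π(x)) / (y / log x)` -/
noncomputable def R (x y : ℝ) : ℝ :=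
  ((Nat.primeCounting ⌊x + y⌋₊ : ℝ) - Nat.primeCounting ⌊x⌋₊) / (y / Real.log x)

open Classical in
/-- The energy of order `p` of the family of real numbers `r 1, ..., r x`: the number of the pairs `v`, `w` of
`p`-tuples of elements of `{1, ..., x}` such that `r (v 1) + ... + r (v p)` and `r (w 1) + ... + r (w p)` differ
by at most `1`. -/
noncomputable def energy (p x : ℕ) (r : ℕ → ℝ) : ℕ :=
  (((Fintype.piFinset fun _ : Fin p => Icc 1 x) ×ˢ (Fintype.piFinset fun _ : Fin p => Icc 1 x)).filter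
    (fun q => |∑ i, r (q.1 i) - ∑ i, r (q.2 i)| ≤ 1)).card

/-- The weights on the integers of `[1, N]`: `0 ≤ w(a) ≤ log ^ C N`, and the sum of the `w(a)` is at least
`N / log ^ C N`. For instance the indicator function of any set of at least `N / log ^ C N` integers in `[1, N]`. -/
def Weight (C N : ℕ) (w : ℕ → ℝ) : Prop :=
  (∀ a ∈ Icc 1 N, 0 ≤ w a ∧ w a ≤ Real.log N ^ C) ∧ N / Real.log N ^ C ≤ ∑ a ∈ Icc 1 N, w a

/-- The vector `b` of shifts is good for the weight `w`: for all real `y i` with `log ^ K N ≤ y i ≤ N` and all sets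
`J` of indices the weighted mean of the product of the `R(a + b i, y i)`, `i ∈ J`, is within `ε` of `1`, and, if `J`
is not empty, the weighted mean of the product of the deviations `R(a + b i, y i) - 1`, `i ∈ J`, is within `ε` of
`0`. -/
def Uncorrelated (ε : ℝ) (K N : ℕ) (w : ℕ → ℝ) {k : ℕ} (b : Fin k → ℕ) : Prop :=
  ∀ y : Fin k → ℝ, (∀ i, Real.log N ^ K ≤ y i ∧ y i ≤ N) → ∀ J : Finset (Fin k),
    |∑ a ∈ Icc 1 N, w a * ∏ i ∈ J, R ((a + b i : ℕ) : ℝ) (y i) - ∑ a ∈ Icc 1 N, w a| ≤
      ε * ∑ a ∈ Icc 1 N, w a ∧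
    (J.Nonempty → |∑ a ∈ Icc 1 N, w a * ∏ i ∈ J, (R ((a + b i : ℕ) : ℝ) (y i) - 1)| ≤ ε * ∑ a ∈ Icc 1 N, w a)

open Classical in
/-- The number of the vectors `m` with `m i ∈ {1, ..., x i}` for which not all the vectors `b` of positive integers
with `|b i - r i (m i)| ≤ h` have the property `G`. -/
noncomputable def exceptions {k : ℕ} (x : Fin k → ℕ) (r : Fin k → ℕ → ℝ) (h : ℝ) (G : (Fin k → ℕ) → Prop) : ℕ :=
  ((Fintype.piFinset fun i => Icc 1 (x i)).filter
    (fun m => ∃ b : Fin k → ℕ, (∀ i, 1 ≤ b i ∧ |(b i : ℝ) - r i (m i)| ≤ h) ∧ ¬ G b)).card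

/-- The property at scale `N` for the families `r i 1, ..., r i (x i)`, `i = 1, ..., k`: for every weight, for all
vectors `m` with at most `x 1 ⋯ x k / log ^ U N` exceptions, all vectors of positive integers at a distance of at
most `log ^ A N` from the `r i (m i)` are good. -/
def Holds (ε : ℝ) (A C U K N : ℕ) {k : ℕ} (x : Fin k → ℕ) (r : Fin k → ℕ → ℝ) : Prop :=
  ∀ w : ℕ → ℝ, Weight C N w →
    (exceptions x r (Real.log N ^ A) (Uncorrelated ε K N w) : ℝ) ≤ (∏ i, (x i : ℝ)) / Real.log N ^ U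

/-- The sequences `f` (of growth `m ^ c`): nonconstant polynomials with integer coefficients, of degree `c`,
multiplied by a real number `κ ≠ 0`; and the sums `∑ α_y m ^ y` over a finite set `F` of real exponents, the largest
exponent `c` being greater than `1` and not an integer, with `α_c ≠ 0`; for instance `m ^ c`. -/
def Sequence (f : ℕ → ℝ) (c : ℝ) : Prop :=
  (∃ (P : Polynomial ℤ) (κ : ℝ), 1 ≤ P.natDegree ∧ κ ≠ 0 ∧ c = P.natDegree ∧
    f = fun m : ℕ => κ * ((P.eval (m : ℤ) : ℤ) : ℝ)) ∨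
  (∃ (F : Finset ℝ) (α : ℝ → ℝ), c ∈ F ∧ (∀ y ∈ F, y ≤ c) ∧ α c ≠ 0 ∧ 1 < c ∧ (∀ n : ℕ, c ≠ n) ∧
    f = fun m : ℕ => ∑ y ∈ F, α y * (m : ℝ) ^ y)

lemma expand {k : ℕ} (J : Finset (Fin k)) (hJ : J.Nonempty) (N : ℕ) (w : ℕ → ℝ) (g : ℕ → Fin k → ℝ) (δ : ℝ)
    (h : ∀ t : Finset (Fin k), |∑ a ∈ Icc 1 N, w a * ∏ i ∈ t, g a i - ∑ a ∈ Icc 1 N, w a| ≤ δ) :
    |∑ a ∈ Icc 1 N, w a * ∏ i ∈ J, (g a i - 1)| ≤ 2 ^ k * δ := by
  classical
  have h0 : ∑ t ∈ J.powerset, ∏ _i ∈ J \ t, (-1 : ℝ) = 0 := by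
    have h1 := prod_add (fun _ : Fin k => (1 : ℝ)) (fun _ => (-1 : ℝ)) J
    simp only [prod_const_one, one_mul] at h1
    rw [← h1]
    obtain ⟨i, hi⟩ := hJ
    exact prod_eq_zero hi (by norm_num)
  have h2 : ∑ a ∈ Icc 1 N, w a * ∏ i ∈ J, (g a i - 1) =
      ∑ t ∈ J.powerset, (∏ _i ∈ J \ t, (-1 : ℝ)) * (∑ a ∈ Icc 1 N, w a * ∏ i ∈ t, g a i - ∑ a ∈ Icc 1 N, w a) := by
    have h3 : ∑ t ∈ J.powerset, (∏ _i ∈ J \ t, (-1 : ℝ)) * (∑ a ∈ Icc 1 N, w a * ∏ i ∈ t, g a i - ∑ a ∈ Icc 1 N, w a) =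
        ∑ t ∈ J.powerset, (∏ _i ∈ J \ t, (-1 : ℝ)) * (∑ a ∈ Icc 1 N, w a * ∏ i ∈ t, g a i) := by
      simp only [mul_sub]
      rw [sum_sub_distrib, ← sum_mul, h0, zero_mul, sub_zero]
    rw [h3]
    simp only [mul_sum]
    rw [sum_comm]
    apply sum_congr rfl
    intro a _
    simp only [sub_eq_add_neg]
    rw [prod_add, mul_sum]
    apply sum_congr rfl
    intro t _
    ring
  rw [h2]
  refine (abs_sum_le_sum_abs _ _).trans ?_
  have hδ : 0 ≤ δ := (abs_nonneg _).trans (h ∅)
  calc ∑ t ∈ J.powerset, |(∏ _i ∈ J \ t, (-1 : ℝ)) * (∑ a ∈ Icc 1 N, w a * ∏ i ∈ t, g a i - ∑ a ∈ Icc 1 N, w a)|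
      ≤ ∑ _t ∈ J.powerset, δ := by
        apply sum_le_sum
        intro t _
        rw [abs_mul, abs_prod]
        simp only [abs_neg, abs_one, prod_const_one, one_mul]
        exact h t
    _ = 2 ^ J.card * δ := by
        rw [sum_const, card_powerset, nsmul_eq_mul]
        push_cast
        ring
    _ ≤ 2 ^ k * δ := by
        apply mul_le_mul_of_nonneg_right _ hδ
        apply pow_le_pow_right₀ (by norm_num)
        have := card_le_univ J
        rwa [Fintype.card_fin] at this

lemma near_monoC {A p B C C' N x : ℕ} {r : ℕ → ℝ} (hN : 1 ≤ Real.log N) (hC : C ≤ C')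
    (h : Pool.Agent.Q56.TF.Near A p B C N x r) : Pool.Agent.Q56.TF.Near A p B C' N x r := by
  intro P
  obtain ⟨s, h1, h2, h3⟩ := h P
  refine ⟨s, h1, h2.trans ?_, h3⟩
  apply mul_le_mul_of_nonneg_right _ (by positivity)
  exact pow_le_pow_right₀ hN hC

lemma general (k : ℕ) (p B' C' : Fin k → ℕ) (A C U : ℕ) (ε : ℝ) (hε : 0 < ε) : ∃ K : ℕ, ∀ K' : ℕ, K ≤ K' →
    ∀ N : ℕ, K' ≤ N → ∀ (x : Fin k → ℕ) (r : Fin k → ℕ → ℝ),
      (∀ i, Pool.Agent.Q56.TF.Near A (p i) (B' i) (C' i) N (x i) (r i)) → Holds ε A C U K' N x r := by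
  classical
  obtain ⟨δ, hδ⟩ : ∃ δ, δ = min ε 1 / 2 ^ k := ⟨_, rfl⟩
  have hm0 : 0 < min ε 1 := lt_min hε one_pos
  have hδ0 : 0 < δ := by rw [hδ]; positivity
  have h2k : (1 : ℝ) ≤ 2 ^ k := one_le_pow₀ (by norm_num)
  have hδm : δ ≤ min ε 1 := by
    rw [hδ]
    exact div_le_self hm0.le h2k
  have hδ1 : δ ≤ 1 := hδm.trans (min_le_right _ _)
  have hδε : δ ≤ ε := hδm.trans (min_le_left _ _)
  have hδε2 : 2 ^ k * δ ≤ ε := by
    rw [hδ, mul_div_cancel₀ _ (by positivity)]
    exact min_le_left _ _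
  obtain ⟨K, hK⟩ := Pool.Agent.H82.UC.kstep k p A (univ.sup B') (univ.sup C' + C) U δ hδ0 hδ1
  obtain ⟨N₀, h0⟩ := Filter.eventually_atTop.1 (hK.and (Pool.Agent.W301.SS.ev_L 1))
  refine ⟨max K N₀, fun K' hK' N hN x r hr w hw => ?_⟩
  obtain ⟨h1, h2⟩ := h0 N (((le_max_right _ _).trans hK').trans hN)
  have hℓ : 0 < Real.log N := by linarith
  have hw' : Pool.Agent.H82.UC.Adm (univ.sup C' + C) N w := by
    refine ⟨fun a ha => (hw.1 a ha).1, fun a ha => (hw.1 a ha).2.trans (pow_le_pow_right₀ h2 (by omega)), ?_⟩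
    have h3 := hw.2
    rw [div_le_iff₀ (by positivity)] at h3
    have h4 : 0 ≤ ∑ a ∈ Icc 1 N, w a := sum_nonneg fun a ha => (hw.1 a ha).1
    calc (N : ℝ) ≤ (∑ a ∈ Icc 1 N, w a) * Real.log N ^ C := h3
      _ = Real.log N ^ C * ∑ a ∈ Icc 1 N, w a := mul_comm _ _
      _ ≤ Real.log N ^ (univ.sup C' + C) * ∑ a ∈ Icc 1 N, w a := by
          apply mul_le_mul_of_nonneg_right _ h4
          exact pow_le_pow_right₀ h2 (by omega)
  have hnear : ∀ i, Pool.Agent.Q56.TF.Near A (p i) (univ.sup B') (univ.sup C' + C) N (x i) (r i) := fun i =>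
    near_monoC h2 ((le_sup (f := C') (mem_univ i)).trans (Nat.le_add_right _ _))
      ((hr i).mono (le_sup (f := B') (mem_univ i)))
  unfold exceptions
  refine h1 x r hnear w hw' _ (filter_subset _ _) ?_
  intro m hm
  obtain ⟨_, b, hb1, hb2⟩ := mem_filter.1 hm
  refine ⟨b, hb1, fun hcon => hb2 ?_⟩
  intro y hy J
  have hW : 0 ≤ ∑ a ∈ Icc 1 N, w a := sum_nonneg fun a ha => (hw.1 a ha).1
  have hy' : ∀ i, Real.log N ^ K ≤ y i ∧ y i ≤ N := fun i =>
    ⟨(pow_le_pow_right₀ h2 ((le_max_left _ _).trans hK')).trans (hy i).1, (hy i).2⟩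
  refine ⟨(hcon J y hy').trans (mul_le_mul_of_nonneg_right hδε hW), fun hJ => ?_⟩
  refine (expand J hJ N w (fun a i => R ((a + b i : ℕ) : ℝ) (y i)) _ fun t => hcon t y hy').trans ?_
  rw [← mul_assoc]
  exact mul_le_mul_of_nonneg_right hδε2 hW

lemma Sequence.base {f : ℕ → ℝ} {c : ℝ} (h : Sequence f c) : Pool.Agent.Q56.TF.Base f c ∧ 1 ≤ c := by
  rcases h with ⟨P, κ, hP, hκ, rfl, rfl⟩ | ⟨F, α, hcF, hmax, hα, hc, hcn, rfl⟩
  · exact ⟨(Pool.Agent.Q56.TF.base_poly P hP).dil hκ, by exact_mod_cast hP⟩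
  · exact ⟨Pool.Agent.Q56.TF.base_gp F α c hcF hmax hα hc hcn, hc.le⟩

/-- Let `k`, `A`, `B`, `C`, `U` and `ε > 0` be fixed.

* For all `p 1, ..., p k` there is a `K` such that for all `N ≥ K` the following holds. For `i = 1, ..., k` let
  `r i 1, ..., r i (x i)` be an arbitrary family of real numbers in `[-B N, B N]` with an energy of order `p i` of at
  most `log ^ C N` times `(x i) ^ (2 p i) / N` (the minimal possible order of magnitude), and let `w` be an arbitrary
  weight on the integers of `[1, N]` with `0 ≤ w ≤ log ^ C N` and sum at least `N / log ^ C N`. For all vectors `m`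
  with `m i ∈ {1, ..., x i}`, with at most `x 1 ⋯ x k / log ^ U N` exceptions, ALL vectors `b` of positive integers
  with `|b i - r i (m i)| ≤ log ^ A N` are such that for all real `y 1, ..., y k` in `[log ^ K N, N]` and all sets
  `J` of indices: the `w`-mean over `a ≤ N` of the product over `i ∈ J` of the `R(a + b i, y i)` is within `ε` of
  `1`, and for `J ≠ ∅` the `w`-mean of the product of the `R(a + b i, y i) - 1` is within `ε` of `0`.
* This holds for `r i m = β i + f i m`, where the `f i` are fixed sequences of the kind `Sequence`, of growth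
  `m ^ (c i)`, the `β i` are any real numbers with `|β i| ≤ B N`, and `N / log ^ C N ≤ (x i) ^ (c i) ≤ B N`. -/
theorem result (k A B C U : ℕ) (ε : ℝ) (hε : 0 < ε) :
    (∀ p : Fin k → ℕ, ∃ K : ℕ, ∀ N : ℕ, K ≤ N → ∀ (x : Fin k → ℕ) (r : Fin k → ℕ → ℝ),
      (∀ i, ∀ m ∈ Icc 1 (x i), |r i m| ≤ B * N) →
      (∀ i, (energy (p i) (x i) (r i) : ℝ) * N ≤ Real.log N ^ C * (x i : ℝ) ^ (2 * p i)) →
      Holds ε A C U K N x r) ∧
    (∀ (f : Fin k → ℕ → ℝ) (c : Fin k → ℝ), (∀ i, Sequence (f i) (c i)) → ∃ K : ℕ, ∀ N : ℕ, K ≤ N →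
      ∀ x : Fin k → ℕ, (∀ i, (x i : ℝ) ^ c i ≤ B * N ∧ (N : ℝ) ≤ Real.log N ^ C * (x i : ℝ) ^ c i) →
      ∀ β : Fin k → ℝ, (∀ i, |β i| ≤ B * N) → Holds ε A C U K N x (fun i m => β i + f i m)) := by
  classical
  refine ⟨fun p => ?_, fun f c hf => ?_⟩
  · have h := fun i => Pool.Agent.Q56.TF.near_gen (p i) A B C
    choose B' C' N₀ h1 using h
    obtain ⟨K, h2⟩ := general k p B' C' A C U ε hε
    refine ⟨K + univ.sup N₀, fun N hN x r hr hE => h2 _ (Nat.le_add_right _ _) N hN x r fun i => ?_⟩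
    exact h1 i N (((le_sup (f := N₀) (mem_univ i)).trans (Nat.le_add_left _ _)).trans hN) (x i) (r i) (hr i) (hE i)
  · have h := fun i => Pool.Agent.Q56.TF.near_base (hf i).base.1 (hf i).base.2 A B C
    choose p B' C' N₀ h1 using h
    obtain ⟨K, h2⟩ := general k p B' C' A C U ε hε
    refine ⟨K + univ.sup N₀, fun N hN x hx β hβ => h2 _ (Nat.le_add_right _ _) N hN x _ fun i => ?_⟩
    exact h1 i N (((le_sup (f := N₀) (mem_univ i)).trans (Nat.le_add_left _ _)).trans hN) (x i) (hx i).1 (hx i).2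
      (β i) (hβ i)

end Pool.Agent.Results.MP_293bbf_nt.UncorrelatedDeviations
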